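import Mathlib

/-! Collision lemma (design D4 of the KS project, elementary core).

* `card_le_of_separated`: separated reals in an interval.
* `fracCount`: pairs of distinct primes with quotient in a short interval.
* `collision`: few cells have many primes `r` with a poor window inside `J/r`.
* `regular`: in every block almost all primes are regular. -/

set_option autoImplicit false
open scoped Classical

namespace Pool.Agent.Helper61.KS

/-- points of an interval of length `L` with mutual distances at least `δ` -/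
theorem card_le_of_separated {ι : Type*} (S : Finset ι) (g : ι → ℝ) {a L δ : ℝ} (hδ : 0 < δ) (hL : 0 ≤ L)
    (hmem : ∀ i ∈ S, a ≤ g i ∧ g i ≤ a + L)
    (hsep : ∀ i ∈ S, ∀ j ∈ S, i ≠ j → δ ≤ |g i - g j|) :
    (S.card : ℝ) ≤ 1 + L / δ := by
  have hinj : Set.InjOn (fun i => ⌊(g i - a) / δ⌋₊) (S : Set ι) := by
    intro i hi j hj hij
    by_contra hne
    have h1 := hsep i hi j hj hne
    have hi0 : 0 ≤ (g i - a) / δ := div_nonneg (by linarith [(hmem i hi).1]) hδ.le
    have hj0 : 0 ≤ (g j - a) / δ := div_nonneg (by linarith [(hmem j hj).1]) hδ.le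
    have h2 := Nat.floor_le hi0
    have h3 := Nat.lt_floor_add_one ((g i - a) / δ)
    have h4 := Nat.floor_le hj0
    have h5 := Nat.lt_floor_add_one ((g j - a) / δ)
    simp only at hij
    rw [hij] at h2 h3
    have h6 : |(g i - a) / δ - (g j - a) / δ| < 1 := by
      rw [abs_lt]; constructor <;> linarith
    have h7 : (g i - a) / δ - (g j - a) / δ = (g i - g j) / δ := by ring
    rw [h7, abs_div, abs_of_pos hδ, div_lt_one hδ] at h6
    linarith
  have hmaps : ∀ i ∈ S, ⌊(g i - a) / δ⌋₊ ∈ Finset.range (⌊L / δ⌋₊ + 1) := by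
    intro i hi
    rw [Finset.mem_range, Nat.lt_succ_iff]
    apply Nat.floor_le_floor
    apply div_le_div_of_nonneg_right _ hδ.le
    linarith [(hmem i hi).2]
  have hc := Finset.card_le_card_of_injOn _ hmaps hinj
  rw [Finset.card_range] at hc
  have h8 := Nat.floor_le (div_nonneg hL hδ.le)
  calc (S.card : ℝ) ≤ ((⌊L / δ⌋₊ + 1 : ℕ) : ℝ) := by exact_mod_cast hc
    _ = ⌊L / δ⌋₊ + 1 := by push_cast; ring
    _ ≤ 1 + L / δ := by linarith

/-- pairs of distinct primes `r, r'` of `[Q, 2Q]` with `|r/r' - z| ≤ η` -/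
theorem fracCount {Q : ℝ} (hQ : 1 ≤ Q) (R : Finset ℕ) (hR : ∀ r ∈ R, r.Prime ∧ Q ≤ r ∧ (r : ℝ) ≤ 2 * Q)
    (z η : ℝ) (hη : 0 ≤ η) :
    (((R ×ˢ R).filter (fun p => p.1 ≠ p.2 ∧ |(p.1 : ℝ) / p.2 - z| ≤ η)).card : ℝ) ≤ 1 + 8 * η * Q ^ 2 := by
  have key := card_le_of_separated ((R ×ˢ R).filter (fun p => p.1 ≠ p.2 ∧ |(p.1 : ℝ) / p.2 - z| ≤ η))
    (fun p => (p.1 : ℝ) / p.2) (a := z - η) (L := 2 * η) (δ := 1 / (4 * Q ^ 2)) (by positivity) (by linarith)
    (by
      intro p hp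
      rw [Finset.mem_filter] at hp
      have := hp.2.2
      rw [abs_le] at this
      constructor <;> linarith)
    (by
      intro p hp q hq hne
      rw [Finset.mem_filter, Finset.mem_product] at hp hq
      obtain ⟨⟨hp1, hp2⟩, hp3, -⟩ := hp
      obtain ⟨⟨hq1, hq2⟩, hq3, -⟩ := hq
      obtain ⟨pp1, pa1, pb1⟩ := hR _ hp1
      obtain ⟨pp2, pa2, pb2⟩ := hR _ hp2
      obtain ⟨qp1, qa1, qb1⟩ := hR _ hq1
      obtain ⟨qp2, qa2, qb2⟩ := hR _ hq2
      have h2pos : (0 : ℝ) < p.2 := by linarith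
      have hq2pos : (0 : ℝ) < q.2 := by linarith
      have hcross : (p.1 : ℤ) * q.2 - q.1 * p.2 ≠ 0 := by
        intro h0
        have h1 : p.1 * q.2 = q.1 * p.2 := by
          have : (p.1 : ℤ) * q.2 = q.1 * p.2 := by linarith
          exact_mod_cast this
        have h2 : p.1 ∣ q.1 * p.2 := Dvd.intro _ h1
        rcases (Nat.Prime.dvd_mul pp1).1 h2 with h3 | h3
        · have h4 : p.1 = q.1 := (Nat.prime_dvd_prime_iff_eq pp1 qp1).1 h3
          have h5 : q.2 = p.2 := by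
            rw [h4] at h1
            exact Nat.eq_of_mul_eq_mul_left qp1.pos h1
          exact hne (Prod.ext h4 h5.symm)
        · exact hp3 ((Nat.prime_dvd_prime_iff_eq pp1 pp2).1 h3)
      have hcross' : (1 : ℝ) ≤ |(p.1 : ℝ) * q.2 - q.1 * p.2| := by
        have : (1 : ℤ) ≤ |(p.1 : ℤ) * q.2 - q.1 * p.2| := Int.one_le_abs hcross
        have h' : ((1 : ℤ) : ℝ) ≤ ((|(p.1 : ℤ) * q.2 - q.1 * p.2| : ℤ) : ℝ) := by exact_mod_cast this
        push_cast at h'
        exact h'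
      have heq : (p.1 : ℝ) / p.2 - (q.1 : ℝ) / q.2 = ((p.1 : ℝ) * q.2 - q.1 * p.2) / (p.2 * q.2) := by
        field_simp
      rw [heq, abs_div, abs_of_pos (mul_pos h2pos hq2pos), div_le_div_iff₀ (by positivity) (mul_pos h2pos hq2pos)]
      have h9 : (p.2 : ℝ) * q.2 ≤ (2 * Q) * (2 * Q) := by
        apply mul_le_mul pb2 qb2 hq2pos.le (by linarith)
      nlinarith [sq_nonneg Q])
  refine key.trans (le_of_eq ?_)
  field_simp
  ring

/-- Cauchy-Schwarz for the fibres of a map -/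
theorem sq_card_le {α β : Type*} [DecidableEq β] (A : Finset α) (P : Finset β) (φ : α → β) (h : ∀ a ∈ A, φ a ∈ P) :
    (A.card : ℝ) ^ 2 ≤ P.card * (((A ×ˢ A).filter (fun p => φ p.1 = φ p.2)).card : ℝ) := by
  have h1 : A.card = ∑ b ∈ P, (A.filter (fun a => φ a = b)).card := Finset.card_eq_sum_card_fiberwise h
  have h2 : ((A ×ˢ A).filter (fun p => φ p.1 = φ p.2)).card = ∑ b ∈ P, (A.filter (fun a => φ a = b)).card ^ 2 := by
    have h3 : ∀ p ∈ (A ×ˢ A).filter (fun p => φ p.1 = φ p.2), φ p.1 ∈ P := by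
      intro p hp
      rw [Finset.mem_filter, Finset.mem_product] at hp
      exact h _ hp.1.1
    rw [Finset.card_eq_sum_card_fiberwise h3]
    refine Finset.sum_congr rfl (fun b _ => ?_)
    rw [sq, ← Finset.card_product]
    congr 1
    ext p
    simp only [Finset.mem_filter, Finset.mem_product]
    constructor
    · rintro ⟨⟨⟨h4, h5⟩, h6⟩, h7⟩
      exact ⟨⟨h4, h7⟩, ⟨h5, by rw [← h6, h7]⟩⟩
    · rintro ⟨⟨h4, h7⟩, ⟨h5, h8⟩⟩
      exact ⟨⟨⟨h4, h5⟩, by rw [h7, h8]⟩, h7⟩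
  rw [h1, h2]
  push_cast
  have := sq_sum_le_card_mul_sum_sq (s := P) (f := fun b => ((A.filter (fun a => φ a = b)).card : ℝ))
  exact this

/-- THE COLLISION LEMMA. `Js` cells with left end points `x i`, `B i` the set of primes `r` such that a poor window
meets `J/r`, `φ i r` such a window. -/
theorem collision {ι β : Type*} [DecidableEq ι] [DecidableEq β] (Js : Finset ι) (x : ι → ℝ) (R : Finset ℕ) (B : ι → Finset ℕ)
    (P : Finset β) (φ : ι → ℕ → β) {X lam Q ρ π0 : ℝ} (hX : 0 < X) (hlam : 0 < lam) (hQ : 1 ≤ Q) (hρ : 0 ≤ ρ) (hπ : 0 < π0)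
    (hR : ∀ r ∈ R, r.Prime ∧ Q ≤ r ∧ (r : ℝ) ≤ 2 * Q) (hB : ∀ i ∈ Js, B i ⊆ R)
    (hx : ∀ i ∈ Js, X ≤ x i) (hsep : ∀ i ∈ Js, ∀ j ∈ Js, i ≠ j → lam ≤ |x i - x j|)
    (hP : ∀ i ∈ Js, ∀ r ∈ B i, φ i r ∈ P)
    (hclose : ∀ i ∈ Js, ∀ j ∈ Js, ∀ r ∈ B i, ∀ r' ∈ B j, φ i r = φ j r' → |x i / r - x j / r'| ≤ ρ)
    (hcard : ∀ i ∈ Js, π0 ≤ ((B i).card : ℝ))
    (hcond : (P.card : ℝ) * (1 + 16 * ρ * Q ^ 3 / X) ≤ π0 ^ 2 / 2) :
    (Js.card : ℝ) * π0 ≤ 2 * P.card * (1 + 4 * ρ * Q / lam) := by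
  set A : Finset (ι × ℕ) := (Js ×ˢ R).filter (fun p => p.2 ∈ B p.1) with hA
  have memA : ∀ a ∈ A, a.1 ∈ Js ∧ a.2 ∈ B a.1 := by
    intro a ha
    rw [hA, Finset.mem_filter, Finset.mem_product] at ha
    exact ⟨ha.1.1, ha.2⟩
  set ψ : ι × ℕ → β := fun a => φ a.1 a.2 with hψ
  have hCS := sq_card_le A P ψ (fun a ha => hP _ (memA a ha).1 _ (memA a ha).2)
  -- number of pairs
  have hAcard : (Js.card : ℝ) * π0 ≤ A.card := by
    have h1 : A.card = ∑ i ∈ Js, (A.filter (fun a => a.1 = i)).card :=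
      Finset.card_eq_sum_card_fiberwise (fun a ha => (memA a ha).1)
    have h2 : ∀ i ∈ Js, π0 ≤ ((A.filter (fun a => a.1 = i)).card : ℝ) := by
      intro i hi
      refine (hcard i hi).trans ?_
      have : (B i).card ≤ (A.filter (fun a => a.1 = i)).card := by
        apply Finset.card_le_card_of_injOn (fun r => (i, r))
        · intro r hr
          have hr' : r ∈ B i := hr
          simp only [Finset.coe_filter, Set.mem_ofPred_eq, hA, Finset.mem_filter, Finset.mem_product]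
          exact ⟨⟨⟨hi, hB i hi hr'⟩, hr'⟩, trivial⟩
        · intro r _ r' _ h
          exact (Prod.ext_iff.1 h).2
      exact_mod_cast this
    rw [h1]
    push_cast
    calc (Js.card : ℝ) * π0 = ∑ i ∈ Js, π0 := by rw [Finset.sum_const, nsmul_eq_mul]
      _ ≤ _ := Finset.sum_le_sum h2
  -- split the collisions
  set C := (A ×ˢ A).filter (fun p => ψ p.1 = ψ p.2) with hC
  have hsplit : C.card = (C.filter (fun p => p.1.2 = p.2.2)).card + (C.filter (fun p => ¬ p.1.2 = p.2.2)).card :=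
    (Finset.card_filter_add_card_filter_not _).symm
  have memC : ∀ p ∈ C, p.1 ∈ A ∧ p.2 ∈ A ∧ ψ p.1 = ψ p.2 := by
    intro p hp
    rw [hC, Finset.mem_filter, Finset.mem_product] at hp
    exact ⟨hp.1.1, hp.1.2, hp.2⟩
  have hrpos : ∀ i ∈ Js, ∀ r ∈ B i, (0 : ℝ) < r ∧ (r : ℝ) ≤ 2 * Q := by
    intro i hi r hr
    obtain ⟨_, h2, h3⟩ := hR r (hB i hi hr)
    exact ⟨by linarith, h3⟩
  have hC1 : ((C.filter (fun p => p.1.2 = p.2.2)).card : ℝ) ≤ A.card * (1 + 4 * ρ * Q / lam) := by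
    have h1 : (C.filter (fun p => p.1.2 = p.2.2)).card
        = ∑ a ∈ A, ((C.filter (fun p => p.1.2 = p.2.2)).filter (fun p => p.1 = a)).card :=
      Finset.card_eq_sum_card_fiberwise (fun p hp => (memC p (Finset.mem_filter.1 hp).1).1)
    rw [h1]
    push_cast
    have h2 : ∀ a ∈ A, (((C.filter (fun p => p.1.2 = p.2.2)).filter (fun p => p.1 = a)).card : ℝ) ≤ 1 + 4 * ρ * Q / lam := by
      intro a ha
      obtain ⟨ha1, ha2⟩ := memA a ha
      have h3 := card_le_of_separated (((C.filter (fun p => p.1.2 = p.2.2)).filter (fun p => p.1 = a)))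
        (fun p => x p.2.1) (a := x a.1 - 2 * ρ * Q) (L := 4 * ρ * Q) (δ := lam) hlam (by positivity)
        (by
          intro p hp
          rw [Finset.mem_filter, Finset.mem_filter] at hp
          obtain ⟨⟨hpC, hp2⟩, rfl⟩ := hp
          obtain ⟨m1, m2, m3⟩ := memC p hpC
          obtain ⟨n1, n2⟩ := memA _ m1
          obtain ⟨o1, o2⟩ := memA _ m2
          have h4 := hclose _ n1 _ o1 _ n2 _ o2 m3
          obtain ⟨q1, q2⟩ := hrpos _ n1 _ n2
          rw [← hp2, ← sub_div, abs_div, abs_of_pos q1, div_le_iff₀ q1] at h4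
          have h5 : |x p.1.1 - x p.2.1| ≤ 2 * ρ * Q := by
            refine h4.trans ?_
            nlinarith
          rw [abs_le] at h5
          constructor <;> linarith)
        (by
          intro p hp q hq hne
          rw [Finset.mem_filter, Finset.mem_filter] at hp hq
          obtain ⟨⟨hpC, hp2⟩, hpa⟩ := hp
          obtain ⟨⟨hqC, hq2⟩, hqa⟩ := hq
          obtain ⟨m1, m2, m3⟩ := memC p hpC
          obtain ⟨n1, n2, n3⟩ := memC q hqC
          have : p.2.1 ≠ q.2.1 := by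
            intro h6
            apply hne
            refine Prod.ext (hpa.trans hqa.symm) (Prod.ext h6 ?_)
            rw [← hp2, ← hq2, hpa, hqa]
          exact hsep _ (memA _ m2).1 _ (memA _ n2).1 this)
      exact h3
    calc (∑ a ∈ A, (((C.filter (fun p => p.1.2 = p.2.2)).filter (fun p => p.1 = a)).card : ℝ))
        ≤ ∑ a ∈ A, (1 + 4 * ρ * Q / lam) := Finset.sum_le_sum h2
      _ = _ := by rw [Finset.sum_const, nsmul_eq_mul]
  have hC2 : ((C.filter (fun p => ¬ p.1.2 = p.2.2)).card : ℝ) ≤ (Js.card : ℝ) ^ 2 * (1 + 16 * ρ * Q ^ 3 / X) := by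
    set C2 := C.filter (fun p => ¬ p.1.2 = p.2.2) with hC2def
    have h1 : C2.card = ∑ ij ∈ Js ×ˢ Js, (C2.filter (fun p => (p.1.1, p.2.1) = ij)).card := by
      apply Finset.card_eq_sum_card_fiberwise
      intro p hp
      obtain ⟨m1, m2, m3⟩ := memC p (Finset.mem_filter.1 hp).1
      exact Finset.mem_coe.2 (Finset.mem_product.2 ⟨(memA _ m1).1, (memA _ m2).1⟩)
    rw [h1]
    push_cast
    have h2 : ∀ ij ∈ Js ×ˢ Js, ((C2.filter (fun p => (p.1.1, p.2.1) = ij)).card : ℝ) ≤ 1 + 16 * ρ * Q ^ 3 / X := by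
      intro ij hij
      rw [Finset.mem_product] at hij
      have hxj : X ≤ x ij.2 := hx _ hij.2
      have hxj0 : 0 < x ij.2 := by linarith
      have h3 := fracCount hQ R hR (x ij.1 / x ij.2) (2 * ρ * Q / X) (by positivity)
      have h4 : (C2.filter (fun p => (p.1.1, p.2.1) = ij)).card
          ≤ ((R ×ˢ R).filter (fun p => p.1 ≠ p.2 ∧ |(p.1 : ℝ) / p.2 - x ij.1 / x ij.2| ≤ 2 * ρ * Q / X)).card := by
        apply Finset.card_le_card_of_injOn (fun p => (p.1.2, p.2.2))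
        · intro p hp
          have hp' : p ∈ C2.filter (fun p => (p.1.1, p.2.1) = ij) := hp
          rw [Finset.mem_filter] at hp'
          obtain ⟨hpC2, hpij⟩ := hp'
          rw [hC2def, Finset.mem_filter] at hpC2
          obtain ⟨hpC, hpne⟩ := hpC2
          obtain ⟨m1, m2, m3⟩ := memC p hpC
          obtain ⟨n1, n2⟩ := memA _ m1
          obtain ⟨o1, o2⟩ := memA _ m2
          have h5 := hclose _ n1 _ o1 _ n2 _ o2 m3
          have e1 : p.1.1 = ij.1 := by rw [← hpij]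
          have e2 : p.2.1 = ij.2 := by rw [← hpij]
          obtain ⟨q1, q2⟩ := hrpos _ n1 _ n2
          obtain ⟨r1, r2⟩ := hrpos _ o1 _ o2
          rw [e1, e2] at h5
          refine Finset.mem_coe.2 (Finset.mem_filter.2 ⟨Finset.mem_product.2 ⟨hB _ n1 n2, hB _ o1 o2⟩, hpne, ?_⟩)
          have h6 : (p.1.2 : ℝ) / p.2.2 - x ij.1 / x ij.2
              = -((x ij.1 / p.1.2 - x ij.2 / p.2.2) * (p.1.2 / x ij.2)) := by
            field_simp
            ring
          rw [h6, abs_neg, abs_mul, abs_of_pos (div_pos q1 hxj0)]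
          calc |x ij.1 / p.1.2 - x ij.2 / p.2.2| * (p.1.2 / x ij.2) ≤ ρ * (2 * Q / X) := by
                apply mul_le_mul h5 _ (div_pos q1 hxj0).le hρ
                exact div_le_div₀ (by linarith) q2 hX hxj
            _ = 2 * ρ * Q / X := by ring
        · intro p hp q hq hpq
          have hp' : p ∈ C2.filter (fun p => (p.1.1, p.2.1) = ij) := hp
          have hq' : q ∈ C2.filter (fun p => (p.1.1, p.2.1) = ij) := hq
          rw [Finset.mem_filter] at hp' hq'
          have h7 := hp'.2.trans hq'.2.symm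
          simp only [Prod.mk.injEq] at h7 hpq
          exact Prod.ext (Prod.ext h7.1 hpq.1) (Prod.ext h7.2 hpq.2)
      have h5 : ((C2.filter (fun p => (p.1.1, p.2.1) = ij)).card : ℝ) ≤ 1 + 8 * (2 * ρ * Q / X) * Q ^ 2 :=
        le_trans (by exact_mod_cast h4) h3
      refine h5.trans (le_of_eq ?_)
      ring
    calc (∑ ij ∈ Js ×ˢ Js, ((C2.filter (fun p => (p.1.1, p.2.1) = ij)).card : ℝ))
        ≤ ∑ ij ∈ Js ×ˢ Js, (1 + 16 * ρ * Q ^ 3 / X) := Finset.sum_le_sum h2
      _ = _ := by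
        rw [Finset.sum_const, nsmul_eq_mul, Finset.card_product]
        push_cast
        ring
  -- conclusion
  have hN : (A.card : ℝ) ^ 2 ≤ P.card * (A.card * (1 + 4 * ρ * Q / lam) + (Js.card : ℝ) ^ 2 * (1 + 16 * ρ * Q ^ 3 / X)) := by
    refine hCS.trans ?_
    apply mul_le_mul_of_nonneg_left _ (Nat.cast_nonneg _)
    have : ((C.card : ℕ) : ℝ) = ((C.filter (fun p => p.1.2 = p.2.2)).card : ℝ) + ((C.filter (fun p => ¬ p.1.2 = p.2.2)).card : ℝ) := by
      rw [hsplit]; push_cast; ring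
    rw [this]
    linarith
  have hM2 : (P.card : ℝ) * ((Js.card : ℝ) ^ 2 * (1 + 16 * ρ * Q ^ 3 / X)) ≤ (A.card : ℝ) ^ 2 / 2 := by
    calc (P.card : ℝ) * ((Js.card : ℝ) ^ 2 * (1 + 16 * ρ * Q ^ 3 / X))
        = (Js.card : ℝ) ^ 2 * (P.card * (1 + 16 * ρ * Q ^ 3 / X)) := by ring
      _ ≤ (Js.card : ℝ) ^ 2 * (π0 ^ 2 / 2) := mul_le_mul_of_nonneg_left hcond (sq_nonneg _)
      _ = ((Js.card : ℝ) * π0) ^ 2 / 2 := by ring
      _ ≤ (A.card : ℝ) ^ 2 / 2 := by
        apply div_le_div_of_nonneg_right _ (by norm_num)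
        exact pow_le_pow_left₀ (by positivity) hAcard 2
  rcases eq_or_lt_of_le (Nat.cast_nonneg (α := ℝ) A.card) with h0 | h0
  · rw [← h0] at hAcard
    have : (0 : ℝ) ≤ 2 * P.card * (1 + 4 * ρ * Q / lam) := by positivity
    linarith
  · refine hAcard.trans ?_
    have h1 : (A.card : ℝ) * A.card ≤ A.card * (2 * P.card * (1 + 4 * ρ * Q / lam)) := by nlinarith
    exact le_of_mul_le_mul_left h1 h0

end Pool.Agent.Helper61.KS
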