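import Pool.Agent.Helper16.KS.StP

/-!
# Project KS: heavy loads (`EvHeavy1`, `EvHeavy2` from `Load1`, `Load2`)
-/

set_option autoImplicit false
open scoped Classical

namespace Pool.Agent.Helper61.KS

open Pool.Agent.Helper16.KS Pool.Agent.Helper16.KS.Sys Pool.Agent.Helper62.KS
  Pool.Agent.Helper33.KS

/-- index set of the expanded loads: `(n, k', j', x, D)` -/
abbrev HI : Type := Σ _ : ℕ, Σ _ : ℕ, Σ _ : ℕ, Σ _ : ℕ × ℕ, Finset ℕ

variable (S : Sys)

noncomputable def hT (k0 k j : ℕ) (Q : ℕ × ℕ → ℕ → ℕ × ℕ → Prop) : Finset HI :=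
  ((cell S.d k j).filter (rough k0)).sigma fun n => (S.hvy k0 k).sigma fun k' =>
    (S.badc k').sigma fun j' =>
      ((S.Cand k' j').filter (fun x => x.1 ∣ n ∧ Q (k', j') n x)).sigma fun x =>
        (n / x.1).primeFactors.powerset

noncomputable def hW (t : HI) : ℝ :=
  S.wd t.2.1 t.2.2.2.1.2 * S.Fe t.2.2.2.2 (t.1 / t.2.2.2.1.1)

def hSup (t : HI) : Finset ℕ := t.2.2.2.1.2.primeFactors ∪ t.2.2.2.2

theorem hW_nonneg (t : HI) : 0 ≤ hW S t := mul_nonneg (S.wd_nonneg _ _) (S.Fe_nonneg _ _)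

theorem rough_of_dvd {k0 m n : ℕ} (h : rough k0 n) (hm : m ∣ n) : rough k0 m :=
  fun p hp hpm => h p hp (hpm.trans hm)

theorem hvy_facts {k0 k k' : ℕ} (h : k' ∈ S.hvy k0 k) : k0 ≤ k' := by
  unfold Sys.hvy at h
  rw [Finset.mem_Ico] at h
  exact (le_max_left _ _).trans h.1

theorem cand_big {k0 k' j' : ℕ} (hK : S.K ≤ k') (hk : k0 ≤ k') (hj : j' ∈ S.badc k')
    {x : ℕ × ℕ} (hx : x ∈ S.Cand k' j') : (2 : ℝ) ^ ((k0 : ℝ) / 5) ≤ x.1 := by
  obtain ⟨-, -, -, -, -, -, -, h1, -⟩ := S.cand_facts hK hj hx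
  refine le_trans ?_ h1
  apply Real.rpow_le_rpow_of_exponent_le (by norm_num)
  have h2 : (k0 : ℝ) ≤ k' := by exact_mod_cast hk
  have h3 : (0 : ℝ) ≤ k' := Nat.cast_nonneg _
  linarith

/-- the load is at most the random sum -/
theorem HP_le_YY {k0 : ℕ} (hK : S.K ≤ k0) (R : Set ℕ) (k j : ℕ)
    (Q : ℕ × ℕ → ℕ → ℕ × ℕ → Prop) :
    S.HP k0 R k j Q ≤ YY (hT S k0 k j Q) (hW S) hSup R := by
  unfold Sys.HP YY
  simp only [hT, Finset.sum_sigma, hW, hSup]
  rw [Finset.sum_filter]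
  refine Finset.sum_le_sum fun n hn => ?_
  have hn0 : n ≠ 0 := by
    have := cell_ge hn
    have h2 : 0 < 2 ^ k := by positivity
    omega
  by_cases hr : rough k0 n
  · rw [if_pos hr]
    refine Finset.sum_le_sum fun k' hk' => Finset.sum_le_sum fun j' hj' => ?_
    have hsub : (S.act R k' j').filter (fun x => x.1 ∣ n ∧ Q (k', j') n x) ⊆
        (S.Cand k' j').filter (fun x => x.1 ∣ n ∧ Q (k', j') n x) := by
      intro x hx
      rw [Finset.mem_filter] at hx ⊢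
      exact ⟨((S.mem_act).1 hx.1).1, hx.2⟩
    refine le_trans ?_ (Finset.sum_le_sum_of_subset_of_nonneg hsub fun x _ _ =>
      Finset.sum_nonneg fun D _ => mul_nonneg (mul_nonneg (S.wd_nonneg _ _) (S.Fe_nonneg _ _))
        (ind_nonneg _ _))
    refine Finset.sum_le_sum fun x hx => ?_
    rw [Finset.mem_filter] at hx
    have hx1 := (S.mem_act).1 hx.1
    have hxr : rough k0 (n / x.1) := rough_of_dvd hr (Nat.div_dvd_of_dvd hx.2.1)
    have hx2 : x.2 ≠ 0 := by
      obtain ⟨-, -, -, h4, -⟩ := S.cand_facts (hK.trans (hvy_facts S hk')) hj' hx1.1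
      omega
    calc S.wd k' x.2 * CM (S.Fh k0 R) (n / x.1) ≤
        S.wd k' x.2 * ∑ D ∈ (n / x.1).primeFactors.powerset.filter (fun D => ∀ p ∈ D, p ∈ R),
          S.Fe D (n / x.1) := mul_le_mul_of_nonneg_left (S.CM_Fh_le k0 R hxr) (S.wd_nonneg _ _)
      _ = ∑ D ∈ (n / x.1).primeFactors.powerset, (if ∀ p ∈ D, p ∈ R then
            S.wd k' x.2 * S.Fe D (n / x.1) else 0) := by
          rw [Finset.mul_sum, Finset.sum_filter]
      _ ≤ _ := by
          refine Finset.sum_le_sum fun D _ => ?_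
          split_ifs with hD
          · have h1 : ind R (x.2.primeFactors ∪ D) = 1 := by
              unfold ind
              rw [if_pos]
              intro p hp
              rw [Finset.mem_coe, Finset.mem_union] at hp
              rcases hp with hp | hp
              · have := Nat.mem_primeFactors.mp hp
                exact hx1.2 p this.1 this.2.1
              · exact hD p hp
            rw [h1, mul_one]
          · exact mul_nonneg (mul_nonneg (S.wd_nonneg _ _) (S.Fe_nonneg _ _)) (ind_nonneg _ _)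
  · rw [if_neg hr]
    refine le_of_eq ?_
    refine Finset.sum_eq_zero fun k' hk' => Finset.sum_eq_zero fun j' hj' =>
      Finset.sum_eq_zero fun x hx => ?_
    rw [Finset.mem_filter] at hx
    have hx1 := (S.mem_act).1 hx.1
    have hkk := hvy_facts S hk'
    have hxp := (S.cand_facts (hK.trans hkk) hj' hx1.1).1
    have hbig := cand_big S (hK.trans hkk) hkk hj' hx1.1
    obtain ⟨m, hm⟩ := hx.2.1
    have hm0 : m ≠ 0 := by
      rintro rfl
      exact hn0 (by rw [hm, mul_zero])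
    have hdiv : n / x.1 = m := by rw [hm, Nat.mul_div_cancel_left _ hxp.pos]
    have hnr : ¬ rough k0 m := by
      intro h
      apply hr
      intro p hp hpn
      rw [hm, hp.dvd_mul] at hpn
      rcases hpn with h1 | h1
      · rw [(Nat.prime_dvd_prime_iff_eq hp hxp).1 h1]
        exact hbig
      · exact h p hp h1
    rw [hdiv, S.CM_Fh_eq_zero k0 R hm0 hnr, mul_zero]

/-- the conditional expectations -/
theorem cond_le_LP (k0 k j : ℕ) (Q : ℕ × ℕ → ℕ → ℕ × ℕ → Prop) (A : Finset ℕ) :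
    ∑ t ∈ (hT S k0 k j Q).filter (fun t => A ⊆ hSup t), hW S t * ∏ i ∈ hSup t \ A, S.PP k0 i ≤
      S.LP k0 k j Q A := by
  rw [Finset.sum_filter]
  unfold Sys.LP
  simp only [hT, Finset.sum_sigma, hW, hSup]
  refine Finset.sum_le_sum fun n hn => Finset.sum_le_sum fun k' hk' =>
    Finset.sum_le_sum fun j' hj' => Finset.sum_le_sum fun x hx => ?_
  rw [Finset.sum_filter]
  refine Finset.sum_le_sum fun D _ => ?_
  split_ifs with h
  · refine mul_le_mul_of_nonneg_left ?_ (mul_nonneg (S.wd_nonneg _ _) (S.Fe_nonneg _ _))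
    unfold Sys.pc
    exact Finset.prod_le_prod (fun i _ => (S.PP_mem k0 i).1) fun i _ => S.PP_le k0 i
  · exact le_rfl

theorem u_big (i : Fin 3) : (1 : ℝ) / 10 ≤ S.u i + S.c := by
  have := S.u_ge i
  have := S.c_pos
  linarith

/-- size of the supports -/
theorem hSup_card {k0 k j : ℕ} (hK : S.K ≤ k0) (hk0 : 1 ≤ k0) (hk : k0 ≤ k)
    (hj : j < nc S.d k) (Q : ℕ × ℕ → ℕ → ℕ × ℕ → Prop) {t : HI} (ht : t ∈ hT S k0 k j Q) :
    ((hSup t).card : ℝ) ≤ 20 * k / k0 := by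
  obtain ⟨n, k', j', x, D⟩ := t
  simp only [hT, Finset.mem_sigma, Finset.mem_filter, Finset.mem_powerset] at ht
  obtain ⟨⟨hn, hr⟩, hk', hj', ⟨hx, hxn, -⟩, hD⟩ := ht
  simp only [hSup]
  have hkk := hvy_facts S hk'
  have hK' := hK.trans hkk
  have hk0' : (1 : ℝ) ≤ k0 := by exact_mod_cast hk0
  have hkR : (k0 : ℝ) ≤ k := by exact_mod_cast hk
  have hk'1 : (1 : ℝ) ≤ k' := by exact_mod_cast hk0.trans hkk
  obtain ⟨hp, -, -, h4, -, -, h7, -, -⟩ := S.cand_facts hK' hj' hx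
  have hn0 : n ≠ 0 := by
    have := cell_ge hn
    have h2 : 0 < 2 ^ k := by positivity
    omega
  -- prime factors of `x.2`
  have h5 : ((x.2.primeFactors).card : ℝ) ≤ 10 := by
    have hb := (S.mem_badc).1 hj'
    obtain ⟨-, -, -, -, -, h6, -⟩ := S.cand k' hK' j' hb.1 hb.2 x hx
    have hrx : rough k' x.2 := by
      intro p hp' hpx
      have h8 := h6 p hp' (hpx.mul_left _)
      have hp1 : (1 : ℝ) ≤ p := by exact_mod_cast hp'.one_le
      have h9 : (p : ℝ) ^ (1/2 - S.del) ≤ (p : ℝ) ^ (1/2 : ℝ) :=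
        Real.rpow_le_rpow_of_exponent_le hp1 (by linarith [S.del_pos])
      have h10 : (2 : ℝ) ^ ((k' : ℝ) / 10) ≤ (p : ℝ) ^ (1/2 : ℝ) := by
        refine le_trans ?_ (h8.trans h9)
        apply Real.rpow_le_rpow_of_exponent_le (by norm_num)
        have := u_big S (S.cls k' j')
        nlinarith
      have h11 : ((2 : ℝ) ^ ((k' : ℝ) / 10)) ^ (2 : ℝ) ≤ ((p : ℝ) ^ (1/2 : ℝ)) ^ (2 : ℝ) :=
        Real.rpow_le_rpow (by positivity) h10 (by norm_num)
      rw [← Real.rpow_mul (by norm_num), ← Real.rpow_mul (by positivity)] at h11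
      norm_num at h11
      calc (2 : ℝ) ^ ((k' : ℝ) / 5) = (2 : ℝ) ^ ((k' : ℝ) / 10 * 2) := by
            congr 1
            ring
        _ ≤ p := h11
    have hx20 : x.2 ≠ 0 := by omega
    have hx2lt : x.2 < 2 ^ (k' + 1) := lt_of_le_of_lt (Nat.le_mul_of_pos_left _ hp.pos) h7
    have h8 := rough_omega_le (hk0.trans hkk) hx20 hrx hx2lt
    have h9 : ((x.2.primeFactors).card : ℝ) ≤ (x.2.primeFactorsList.length : ℝ) := by
      exact_mod_cast List.toFinset_card_le _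
    refine h9.trans (h8.trans ?_)
    rw [div_le_iff₀ (by linarith)]
    linarith
  -- `D`
  have h6 : (D.card : ℝ) ≤ 5 * (k + 1) / k0 := by
    have hm0 : n / x.1 ≠ 0 := by
      obtain ⟨m, hm⟩ := hxn
      rw [hm, Nat.mul_div_cancel_left _ hp.pos]
      rintro rfl
      exact hn0 (by rw [hm, mul_zero])
    have hmlt : n / x.1 < 2 ^ (k + 1) :=
      lt_of_le_of_lt (Nat.div_le_self _ _) (cell_lt S.d_pos hj hn)
    have hmr : rough k0 (n / x.1) := rough_of_dvd hr (Nat.div_dvd_of_dvd hxn)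
    have h8 := rough_omega_le hk0 hm0 hmr hmlt
    have h9 : (D.card : ℝ) ≤ ((n / x.1).primeFactorsList.length : ℝ) := by
      have := Finset.card_le_card hD
      exact_mod_cast this.trans (List.toFinset_card_le _)
    exact h9.trans h8
  have h7 : (((x.2.primeFactors ∪ D).card : ℕ) : ℝ) ≤
      (x.2.primeFactors).card + (D.card : ℝ) := by
    exact_mod_cast Finset.card_union_le _ _
  refine h7.trans ((add_le_add h5 h6).trans ?_)
  rw [le_div_iff₀ (by linarith), add_mul, div_mul_cancel₀ _ (by linarith)]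
  nlinarith

theorem nc_le (k : ℕ) : (nc S.d k : ℝ) ≤ (2 : ℝ) ^ k := by
  unfold nc
  push_cast
  exact pow_le_pow_right₀ (by norm_num) (Nat.sub_le _ _)

/-- general form of `EvHeavy1`, `EvHeavy2` -/
theorem evHeavy (Q : ℕ × ℕ → ℕ → ℕ × ℕ → Prop)
    (hL : ∃ K0 : ℕ, ∀ k0 : ℕ, K0 ≤ k0 → ∀ k, k0 ≤ k → ∀ j < nc S.d k, ∀ A : Finset ℕ,
      S.LP k0 k j Q A ≤ (2 : ℝ) ^ (-(S.ep / 50) * k) * S.G k) :
    ∃ e : ℝ, 0 < e ∧ ∃ K0 : ℕ, ∀ k0, K0 ≤ k0 → ∀ k, k0 ≤ k →
      Pool.Agent.Helper62.KS.pr (S.PP k0) {R | ∃ j < nc S.d k,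
        (2 : ℝ) ^ (-(S.ep / 100) * k) * S.G k < S.HP k0 R k j Q} ≤ (2 : ℝ) ^ (-(e * k)) := by
  obtain ⟨K1, hL⟩ := hL
  have hep := S.ep_pos
  set J : ℕ := ⌈400 / S.ep⌉₊ with hJ
  have hJ1 : 400 / S.ep ≤ J := Nat.le_ceil _
  have hJpos : (0 : ℝ) < J := lt_of_lt_of_le (by positivity) hJ1
  refine ⟨1, one_pos, max (max K1 S.K) (⌈4000 * J / S.ep⌉₊ + 1), fun k0 hk0 k hk => ?_⟩
  have hK1 : K1 ≤ k0 := (le_max_left _ _).trans ((le_max_left _ _).trans hk0)
  have hK : S.K ≤ k0 := (le_max_right _ _).trans ((le_max_left _ _).trans hk0)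
  have hk01 : 1 ≤ k0 := S.K_pos.trans hK
  have hk0J : 4000 * J / S.ep ≤ k0 := by
    have h1 : ⌈4000 * J / S.ep⌉₊ + 1 ≤ k0 := (le_max_right _ _).trans hk0
    have h2 : ⌈4000 * J / S.ep⌉₊ ≤ k0 := by omega
    exact (Nat.le_ceil _).trans (by exact_mod_cast h2)
  have hk0' : (0 : ℝ) < k0 := by exact_mod_cast hk01
  have hkpos : (0 : ℝ) < k := by exact_mod_cast lt_of_lt_of_le hk01 hk
  have hG : 0 < S.G k := S.G_pos (hk01.trans hk)
  set l : ℝ := (2 : ℝ) ^ (-(S.ep / 100) * k) * S.G k with hl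
  have hlpos : 0 < l := by positivity
  set D : ℕ := ⌊20 * (k : ℝ) / k0⌋₊ with hD
  have hDle : (D : ℝ) ≤ 20 * k / k0 := Nat.floor_le (by positivity)
  -- one cell
  have hone : ∀ j ∈ Finset.range (nc S.d k), Pool.Agent.Helper62.KS.pr (S.PP k0)
      {R | l ≤ YY (hT S k0 k j Q) (hW S) hSup R} ≤ (2 : ℝ) ^ (-(2 * (k : ℝ))) := by
    intro j hj
    rw [Finset.mem_range] at hj
    have h1 := pr_upper (S.PP k0) (S.PP_mem k0) (hT S k0 k j Q) (hW S) hSup
      (fun t _ => hW_nonneg S t) D (fun t ht => ?_) ((2 : ℝ) ^ (-(S.ep / 50) * k) * S.G k)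
      (fun A => (cond_le_LP S k0 k j Q A).trans (hL k0 hK1 k hk j hj A)) J l hlpos
    · refine h1.trans ?_
      have h2 : (2 : ℝ) ^ (D * J) * ((2 : ℝ) ^ (-(S.ep / 50) * k) * S.G k) / l ≤
          (2 : ℝ) ^ (-(S.ep / 200) * k) := by
        rw [hl, ← mul_assoc, mul_div_mul_right _ _ hG.ne', div_le_iff₀ (by positivity),
          ← Real.rpow_natCast, ← Real.rpow_add (by norm_num), ← Real.rpow_add (by norm_num)]
        apply Real.rpow_le_rpow_of_exponent_le (by norm_num)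
        push_cast
        have h3 : (D : ℝ) * J ≤ S.ep / 200 * k := by
          calc (D : ℝ) * J ≤ 20 * k / k0 * J := by gcongr
            _ = 20 * J * k / k0 := by ring
            _ ≤ S.ep / 200 * k := by
                rw [div_le_iff₀ hk0']
                rw [div_le_iff₀ hep] at hk0J
                nlinarith
        nlinarith
      have h0 : 0 ≤ (2 : ℝ) ^ (D * J) * ((2 : ℝ) ^ (-(S.ep / 50) * k) * S.G k) / l := by
        positivity
      calc ((2 : ℝ) ^ (D * J) * ((2 : ℝ) ^ (-(S.ep / 50) * k) * S.G k) / l) ^ J ≤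
          ((2 : ℝ) ^ (-(S.ep / 200) * k)) ^ J := pow_le_pow_left₀ h0 h2 _
        _ = (2 : ℝ) ^ (-(S.ep / 200) * k * J) := by
            rw [← Real.rpow_natCast, ← Real.rpow_mul (by norm_num)]
        _ ≤ (2 : ℝ) ^ (-(2 * (k : ℝ))) := by
            apply Real.rpow_le_rpow_of_exponent_le (by norm_num)
            rw [div_le_iff₀ hep] at hJ1
            nlinarith
    · exact Nat.le_floor (hSup_card S hK hk01 hk hj Q ht)
  have hsub : {R | ∃ j < nc S.d k, l < S.HP k0 R k j Q} ⊆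
      ⋃ j ∈ Finset.range (nc S.d k), {R | l ≤ YY (hT S k0 k j Q) (hW S) hSup R} := by
    rintro R ⟨j, hj, hR⟩
    simp only [Set.mem_iUnion]
    refine ⟨j, Finset.mem_range.2 hj, ?_⟩
    exact hR.le.trans (HP_le_YY S hK R k j Q)
  refine (pr_mono _ hsub).trans ((pr_biUnion_le_card _ _ _ _ hone).trans ?_)
  rw [Finset.card_range]
  calc (nc S.d k : ℝ) * (2 : ℝ) ^ (-(2 * (k : ℝ))) ≤ (2 : ℝ) ^ k * (2 : ℝ) ^ (-(2 * (k : ℝ))) := by
        gcongr
        exact nc_le S k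
    _ = (2 : ℝ) ^ (-(1 * (k : ℝ))) := by
        rw [← Real.rpow_natCast, ← Real.rpow_add (by norm_num)]
        congr 1
        ring

theorem evHeavy1 (h : Load1) : EvHeavy1 := fun S => evHeavy S Sys.Q1 (h S)

theorem evHeavy2 (h : Load2) : EvHeavy2 := fun S => evHeavy S S.Q2 (h S)

end Pool.Agent.Helper61.KS
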