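import Pool.Agent.Helper16.KS.St

/-!
# Project KS: pointwise bounds (`WoLe`, `OrdLe`, `CtlLe`, `WpLe`)
-/

set_option autoImplicit false
open scoped Classical
open Filter Topology

namespace Pool.Agent.Helper61.KS

open Pool.Agent.Helper16.KS Pool.Agent.Helper16.KS.Sys

variable (S : Sys)

theorem c_pos : 0 < S.c := by
  have h1 := S.d_pos
  have h2 := S.d_le
  have h3 : 0 < S.c / 10 ^ 5 := lt_of_lt_of_le h1 h2
  by_contra h
  have : S.c / 10 ^ 5 ≤ 0 := div_nonpos_of_nonpos_of_nonneg (not_lt.1 h) (by positivity)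
  linarith

theorem eta_pos : 0 < S.eta := by
  have h1 := c_pos S
  have h2 := S.c_le
  linarith

theorem del_pos : 0 < S.del := lt_of_lt_of_le (eta_pos S) S.eta_le

theorem c_le' : S.c ≤ 0.006 := by
  have h1 := S.c_le
  have h2 := S.eta_le
  have h3 := S.del_le
  have h4 : S.eta ≤ 3/50 := h2.trans h3
  linarith

theorem d_le' : S.d ≤ 0.006 / 10 ^ 5 := by
  have h1 := S.d_le
  have h2 := c_le' S
  calc S.d ≤ S.c / 10 ^ 5 := h1
    _ ≤ 0.006 / 10 ^ 5 := by gcongr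

theorem s_pos : 0 < S.s := by
  have := S.d_pos
  unfold Sys.s
  linarith

theorem s_lt : S.s < 1/100 := by
  have h := d_le' S
  unfold Sys.s
  norm_num at h ⊢
  linarith

theorem ep_pos : 0 < S.ep := by
  unfold Sys.ep
  exact mul_pos (mul_pos (c_pos S) (eta_pos S)) S.d_pos

theorem tau_pos : 0 < S.tau := by
  unfold Sys.tau
  exact div_pos (ep_pos S) (by positivity)

theorem tau_lt : S.tau < 1/1000 := by
  have h1 := c_le' S
  have h2 := d_le' S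
  have h3 : S.eta ≤ 3/50 := S.eta_le.trans S.del_le
  have h4 := S.d_pos
  have h5 := c_pos S
  have h6 := eta_pos S
  unfold Sys.tau Sys.ep
  have h7 : S.c * S.eta * S.d ≤ 0.006 * (3/50) * (0.006 / 10 ^ 5) := by gcongr
  have h8 : S.c * S.eta * S.d / 10 ^ 4 ≤ 0.006 * (3/50) * (0.006 / 10 ^ 5) / 10 ^ 4 := by gcongr
  refine lt_of_le_of_lt h8 ?_
  norm_num

theorem ec_le (k : ℕ) : ec S.d k ≤ k := by
  unfold ec
  refine Nat.floor_le_of_le ?_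
  have h := S.d_pos
  have hk : (0 : ℝ) ≤ k := Nat.cast_nonneg k
  nlinarith

theorem pr_mul_base (m : ℕ) (hm : 1 ≤ m) : S.pr m * S.base m = (m : ℝ) ^ (-(1 - S.s + S.tau)) := by
  have hm' : (0 : ℝ) < m := by exact_mod_cast hm
  unfold Sys.pr Sys.base
  rw [← Real.rpow_add hm']
  congr 1
  unfold Sys.hh
  ring

theorem pr_pos {m : ℕ} (hm : 1 ≤ m) : 0 < S.pr m := by
  have hm' : (0 : ℝ) < m := by exact_mod_cast hm
  exact Real.rpow_pos_of_pos hm' _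

theorem base_pos {m : ℕ} (hm : 1 ≤ m) : 0 < S.base m := by
  have hm' : (0 : ℝ) < m := by exact_mod_cast hm
  exact Real.rpow_pos_of_pos hm' _

theorem base_nonneg (m : ℕ) : 0 ≤ S.base m := Real.rpow_nonneg (Nat.cast_nonneg m) _

theorem wd_eq (k m : ℕ) (hm : 1 ≤ m) :
    S.wd k m = (2 : ℝ) ^ ((S.s - 1) * k) / (S.pr m * S.base m) := by
  have hm' : (0 : ℝ) < m := by exact_mod_cast hm
  rw [pr_mul_base S m hm, Real.rpow_neg hm'.le, div_inv_eq_mul]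
  rfl

theorem wd_nonneg (k m : ℕ) : 0 ≤ S.wd k m :=
  mul_nonneg (Real.rpow_nonneg (by norm_num) _) (Real.rpow_nonneg (Nat.cast_nonneg m) _)

theorem mem_badc {k j : ℕ} : j ∈ S.badc k ↔ j < nc S.d k ∧ S.bad k j := by
  simp [Sys.badc]

theorem card_ge {k j : ℕ} (hk : S.K ≤ k) (hj : j ∈ S.badc k) :
    S.c1 * 2 ^ ec S.d k / k ^ 2 ≤ ((S.Cand k j).card : ℝ) :=
  S.many k hk j ((mem_badc S).1 hj).1 ((mem_badc S).1 hj).2

theorem card_pos {k j : ℕ} (hk : S.K ≤ k) (hj : j ∈ S.badc k) :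
    (0 : ℝ) < ((S.Cand k j).card : ℝ) := by
  refine lt_of_lt_of_le ?_ (card_ge S hk hj)
  have h1 : 0 < S.c1 := S.c1_pos
  have h2 : (0 : ℝ) < k := by
    have := S.K_pos
    exact_mod_cast lt_of_lt_of_le this hk
  positivity

theorem NN_pos {k0 : ℕ} {R : Set ℕ} (hG : S.Good k0 R) {k j : ℕ} (hk0 : k0 ≤ k) (hk : S.K ≤ k)
    (hj : j ∈ S.badc k) : 0 < S.NN R k j := by
  have h1 := hG.lower k hk0 j hj
  have h2 := card_pos S hk hj
  linarith

/-- pointwise bound of `wo` -/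
theorem wo_le' {k0 : ℕ} {R : Set ℕ} (hG : S.Good k0 R) {k j : ℕ} (hk0 : k0 ≤ k) (hk : S.K ≤ k)
    (hj : j ∈ S.badc k) {m : ℕ} (hm : 1 ≤ m) :
    0 ≤ S.wo R k j m ∧ S.wo R k j m ≤ (2 / S.c1) / (k : ℝ) ^ 2 * S.wd k m := by
  have hk1 : (0 : ℝ) < k := by
    have := S.K_pos
    exact_mod_cast lt_of_lt_of_le this hk
  have h1 := hG.lower k hk0 j hj
  have h2 := card_ge S hk hj
  have h3 : S.c1 * 2 ^ ec S.d k / (2 * (k : ℝ) ^ 2) ≤ S.NN R k j := by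
    have : S.c1 * 2 ^ ec S.d k / (2 * (k : ℝ) ^ 2) = S.c1 * 2 ^ ec S.d k / k ^ 2 / 2 := by
      field_simp
    rw [this]
    linarith
  have hN : 0 < S.NN R k j := NN_pos S hG hk0 hk hj
  have hp := pr_pos S hm
  have hb := base_pos S hm
  have hc1 := S.c1_pos
  have hG0 : 0 ≤ S.G k := by
    unfold Sys.G
    positivity
  refine ⟨?_, ?_⟩
  · unfold Sys.wo
    exact div_nonneg hG0 (by positivity)
  · rw [wd_eq S k m hm]
    unfold Sys.wo
    have h4 : S.NN R k j * S.pr m * S.base m = S.NN R k j * (S.pr m * S.base m) := by ring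
    rw [h4]
    have h5 : S.G k / (S.NN R k j * (S.pr m * S.base m)) ≤
        S.G k / (S.c1 * 2 ^ ec S.d k / (2 * (k : ℝ) ^ 2) * (S.pr m * S.base m)) := by
      apply div_le_div_of_nonneg_left hG0
      · positivity
      · exact mul_le_mul_of_nonneg_right h3 (by positivity)
    refine h5.trans (le_of_eq ?_)
    unfold Sys.G
    field_simp

theorem woLe : WoLe := by
  intro S
  refine ⟨S.K, fun k0 hk0 R hG k hk j hj m hm => ?_⟩
  exact wo_le' S hG hk (hk0.trans hk) hj hm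

theorem rpow_s_le {k : ℕ} {n : ℕ} (hn : 1 ≤ n) (h : n < 2 ^ (k + 1)) :
    (2 : ℝ) ^ ((S.s - 1) * k) ≤ 2 * (n : ℝ) ^ (S.s - 1) := by
  have hs := s_pos S
  have hs1 := s_lt S
  have hn' : (0 : ℝ) < n := by exact_mod_cast hn
  have h1 : (n : ℝ) ≤ (2 : ℝ) ^ (k + 1) := by exact_mod_cast h.le
  have h2 : ((2 : ℝ) ^ (k + 1)) ^ (S.s - 1) ≤ (n : ℝ) ^ (S.s - 1) :=
    Real.rpow_le_rpow_of_nonpos hn' h1 (by linarith)
  have h3 : ((2 : ℝ) ^ (k + 1)) ^ (S.s - 1) = (2 : ℝ) ^ ((S.s - 1) * k) * 2 ^ (S.s - 1) := by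
    rw [← Real.rpow_natCast, ← Real.rpow_mul (by norm_num), ← Real.rpow_add (by norm_num)]
    congr 1
    push_cast
    ring
  have h4 : (1/2 : ℝ) ≤ 2 ^ (S.s - 1) := by
    have : (2 : ℝ) ^ (-1 : ℝ) ≤ 2 ^ (S.s - 1) :=
      Real.rpow_le_rpow_of_exponent_le (by norm_num) (by linarith)
    rw [Real.rpow_neg_one] at this
    norm_num at this ⊢
    linarith
  have h5 : (0 : ℝ) < (2 : ℝ) ^ ((S.s - 1) * k) := Real.rpow_pos_of_pos (by norm_num) _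
  rw [h3] at h2
  nlinarith

/-! ### ordinary weights -/

theorem log2_le (p : ℕ) (hp : 2 ≤ p) : Real.log p ≤ 2 * (Nat.log 2 p : ℝ) := by
  have h1 : p < 2 ^ (Nat.log 2 p + 1) := Nat.lt_pow_succ_log_self (by norm_num) p
  have h2 : (p : ℝ) ≤ (2 : ℝ) ^ (Nat.log 2 p + 1) := by exact_mod_cast h1.le
  have h3 : Real.log p ≤ (Nat.log 2 p + 1 : ℕ) * Real.log 2 := by
    rw [← Real.log_pow]
    exact Real.log_le_log (by positivity) h2
  have h4 : Real.log 2 < 1 := by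
    have := Real.log_two_lt_d9
    linarith
  have h5 : 1 ≤ Nat.log 2 p := Nat.log_pos (by norm_num) hp
  have h6 : (1 : ℝ) ≤ Nat.log 2 p := by exact_mod_cast h5
  have h7 : (0 : ℝ) < Real.log 2 := Real.log_pos (by norm_num)
  push_cast at h3
  nlinarith

theorem idx_lt {n k : ℕ} (h1 : 2 ^ k ≤ n) (h2 : n < 2 ^ (k + 1)) :
    S.idx n < nc S.d k := by
  have hlog : Nat.log 2 n = k := Nat.log_eq_of_pow_le_of_lt_pow h1 h2
  unfold Sys.idx nc
  rw [hlog]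
  have h3 : n - 2 ^ k < 2 ^ k := by
    have : 2 ^ (k + 1) = 2 ^ k + 2 ^ k := by ring
    omega
  rw [Nat.div_lt_iff_lt_mul (by positivity), ← pow_add]
  have h4 : k - ec S.d k + ec S.d k = k := Nat.sub_add_cancel (ec_le S k)
  rw [h4]
  exact h3

theorem ordLe : OrdLe := by
  intro S
  refine ⟨16 / S.c1, max S.K 2, fun k0 hk0 p hp => ?_⟩
  have hK : S.K ≤ k0 := (le_max_left _ _).trans hk0
  have h2k : 2 ≤ k0 := (le_max_right _ _).trans hk0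
  have hc1 := S.c1_pos
  have hc1' := S.c1_le
  have hs := s_pos S
  have hs1 := s_lt S
  have hp2 : 2 ≤ p := hp.two_le
  have hp0 : (0 : ℝ) < p := by exact_mod_cast hp.pos
  have hlogp : 0 < Real.log p := Real.log_pos (by exact_mod_cast hp.one_lt)
  have hC : (16 : ℝ) ≤ 16 / S.c1 := by
    rw [le_div_iff₀ hc1]
    linarith
  have hrhs : 0 ≤ 16 / S.c1 * ((p : ℝ) ^ (S.s - 1) / Real.log p ^ 3) := by positivity
  unfold Sys.ordw
  split_ifs with h1 h2 h3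
  · exact ⟨le_rfl, hrhs⟩
  · -- initial block
    have hk0' : (0 : ℝ) < k0 := by
      have : 0 < k0 := by omega
      exact_mod_cast this
    have h4 : Real.log p ≤ k0 := by
      have h5 : (p : ℝ) ≤ (2 : ℝ) ^ k0 := by exact_mod_cast h2.le
      have h6 : Real.log p ≤ (k0 : ℝ) * Real.log 2 := by
        rw [← Real.log_pow]
        exact Real.log_le_log hp0 h5
      have h7 : Real.log 2 < 1 := by
        have := Real.log_two_lt_d9
        linarith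
      nlinarith
    have h5 : (2 : ℝ) ^ ((S.s - 1) * k0) ≤ (p : ℝ) ^ (S.s - 1) := by
      have h6 : (p : ℝ) ≤ (2 : ℝ) ^ k0 := by exact_mod_cast h2.le
      have h7 : ((2 : ℝ) ^ k0) ^ (S.s - 1) ≤ (p : ℝ) ^ (S.s - 1) :=
        Real.rpow_le_rpow_of_nonpos hp0 h6 (by linarith)
      rw [← Real.rpow_natCast, ← Real.rpow_mul (by norm_num)] at h7
      rw [mul_comm]
      exact h7
    unfold Sys.phi0
    refine ⟨by positivity, ?_⟩
    calc (2 : ℝ) ^ ((S.s - 1) * k0) / k0 ^ 3 ≤ (p : ℝ) ^ (S.s - 1) / Real.log p ^ 3 := by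
          gcongr
      _ ≤ 16 / S.c1 * ((p : ℝ) ^ (S.s - 1) / Real.log p ^ 3) := by
          refine le_mul_of_one_le_left (by positivity) ?_
          linarith
  · exact ⟨le_rfl, hrhs⟩
  · set k := Nat.log 2 p with hk
    have hkp : 2 ^ k ≤ p := Nat.pow_log_le_self 2 (by omega)
    have hkp2 : p < 2 ^ (k + 1) := Nat.lt_pow_succ_log_self (by norm_num) p
    have hk0k : k0 ≤ k := by
      have : 2 ^ k0 ≤ p := not_lt.1 h2
      exact (Nat.le_log_iff_pow_le (by norm_num) (by omega)).2 this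
    have hkpos : (0 : ℝ) < k := by
      have : 0 < k := by omega
      exact_mod_cast this
    have hj := idx_lt S hkp hkp2
    have hgood := S.good k (hK.trans hk0k) _ hj h3
    have hn : 0 < S.c1 * 2 ^ ec S.d k / k := by positivity
    have hG0 : 0 ≤ S.G k := by
      unfold Sys.G
      positivity
    refine ⟨div_nonneg hG0 (hn.le.trans hgood), ?_⟩
    have h5 : S.G k / npr S.d k (S.idx p) ≤ S.G k / (S.c1 * 2 ^ ec S.d k / k) :=
      div_le_div_of_nonneg_left hG0 hn hgood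
    have h6 : S.G k / (S.c1 * 2 ^ ec S.d k / k) = (2 : ℝ) ^ ((S.s - 1) * k) / (S.c1 * k ^ 3) := by
      unfold Sys.G
      field_simp
    have h7 := rpow_s_le S (by omega : 1 ≤ p) hkp2
    have h8 : Real.log p ≤ 2 * k := log2_le p hp2
    have h9 : Real.log p ^ 3 ≤ 8 * (k : ℝ) ^ 3 := by
      calc Real.log p ^ 3 ≤ (2 * k : ℝ) ^ 3 := by gcongr
        _ = 8 * (k : ℝ) ^ 3 := by ring
    refine h5.trans ?_
    rw [h6]
    calc (2 : ℝ) ^ ((S.s - 1) * k) / (S.c1 * k ^ 3) ≤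
        2 * (p : ℝ) ^ (S.s - 1) / (S.c1 * k ^ 3) := by gcongr
      _ = 16 / S.c1 * ((p : ℝ) ^ (S.s - 1) / (8 * (k : ℝ) ^ 3)) := by
          field_simp
          ring
      _ ≤ 16 / S.c1 * ((p : ℝ) ^ (S.s - 1) / Real.log p ^ 3) := by gcongr

/-! ### control weights -/

theorem cell_bounds {k j n : ℕ} (hj : j < nc S.d k) (hn : n ∈ cell S.d k j) :
    2 ^ k ≤ n ∧ n < 2 ^ (k + 1) := by
  unfold cell at hn
  rw [Finset.mem_Ico] at hn
  have hec := ec_le S k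
  have h1 : (j + 1) * 2 ^ ec S.d k ≤ 2 ^ k := by
    have h2 : (j + 1) ≤ 2 ^ (k - ec S.d k) := by
      unfold nc at hj
      omega
    calc (j + 1) * 2 ^ ec S.d k ≤ 2 ^ (k - ec S.d k) * 2 ^ ec S.d k := Nat.mul_le_mul_right _ h2
      _ = 2 ^ k := by
        rw [← pow_add, Nat.sub_add_cancel hec]
  have h3 : 2 ^ (k + 1) = 2 ^ k + 2 ^ k := by ring
  constructor
  · have : 0 ≤ j * 2 ^ ec S.d k := Nat.zero_le _
    omega
  · omega

theorem act_facts {k j : ℕ} (hk : S.K ≤ k) (hj : j ∈ S.badc k) {R : Set ℕ} {x : ℕ × ℕ}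
    (hx : x ∈ S.act R k j) : x.1.Prime ∧ (2 : ℝ) ^ ((k : ℝ) / 3) ≤ x.1 ∧ 1 < x.2 ∧
      2 ^ k ≤ x.1 * x.2 ∧ x.1 * x.2 < 2 ^ (k + 1) := by
  have hj' := (mem_badc S).1 hj
  unfold Sys.act at hx
  rw [Finset.mem_filter] at hx
  obtain ⟨h1, h2, h3, h4, h5, h6, h7⟩ := S.cand k hk j hj'.1 hj'.2 x hx.1
  exact ⟨h1, h2, h4, cell_bounds S hj'.1 h5⟩

theorem two_pow_le_cube {k q : ℕ} (h : (2 : ℝ) ^ ((k : ℝ) / 3) ≤ q) : (2 : ℝ) ^ k ≤ (q : ℝ) ^ 3 := by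
  have h1 : ((2 : ℝ) ^ ((k : ℝ) / 3)) ^ 3 ≤ (q : ℝ) ^ 3 := by gcongr
  have h2 : ((2 : ℝ) ^ ((k : ℝ) / 3)) ^ 3 = (2 : ℝ) ^ k := by
    rw [← Real.rpow_natCast ((2 : ℝ) ^ ((k : ℝ) / 3)) 3, ← Real.rpow_mul (by norm_num),
      ← Real.rpow_natCast (2 : ℝ) k]
    congr 1
    push_cast
    ring
  rw [h2] at h1
  exact h1

/-- one control weight -/
theorem wo_le_q {k0 : ℕ} {R : Set ℕ} (hG : S.Good k0 R) {k j : ℕ} (hk0 : k0 ≤ k) (hk : S.K ≤ k)
    (hj : j ∈ S.badc k) {x : ℕ × ℕ} (hx : x ∈ S.act R k j) :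
    S.wo R k j x.2 ≤ (8 / S.c1) / (k : ℝ) ^ 2 * (x.1 : ℝ) ^ (S.s - 1 + 2 * S.tau) := by
  obtain ⟨h1, h2, h3, h4, h5⟩ := act_facts S hk hj hx
  have hs := s_pos S
  have hs1 := s_lt S
  have ht := tau_pos S
  have ht1 := tau_lt S
  have hc1 := S.c1_pos
  have hkpos : (0 : ℝ) < k := by
    have := S.K_pos
    exact_mod_cast lt_of_lt_of_le this hk
  have hq : (0 : ℝ) < x.1 := by exact_mod_cast h1.pos
  have hm : (0 : ℝ) < x.2 := by
    have : 0 < x.2 := by omega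
    exact_mod_cast this
  have h6 := (wo_le' S hG hk0 hk hj h3.le).2
  have h7 := rpow_s_le S (n := x.1 * x.2) (Nat.mul_pos h1.pos (by omega)) h5
  have h8 : ((x.1 * x.2 : ℕ) : ℝ) ^ (S.s - 1) = (x.1 : ℝ) ^ (S.s - 1) * (x.2 : ℝ) ^ (S.s - 1) := by
    push_cast
    exact Real.mul_rpow hq.le hm.le
  have h9 : (x.2 : ℝ) ^ (S.s - 1) * (x.2 : ℝ) ^ (1 - S.s + S.tau) = (x.2 : ℝ) ^ S.tau := by
    rw [← Real.rpow_add hm]
    congr 1
    ring
  -- bound of `m`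
  have h10 : (x.2 : ℝ) ≤ 2 * (x.1 : ℝ) ^ 2 := by
    have h11 := two_pow_le_cube h2
    have h12 : (x.1 : ℝ) * x.2 ≤ (2 : ℝ) ^ (k + 1) := by exact_mod_cast h5.le
    have h13 : (x.1 : ℝ) * x.2 ≤ x.1 * (2 * (x.1 : ℝ) ^ 2) := by
      calc (x.1 : ℝ) * x.2 ≤ (2 : ℝ) ^ (k + 1) := h12
        _ = 2 * (2 : ℝ) ^ k := by ring
        _ ≤ 2 * (x.1 : ℝ) ^ 3 := by gcongr
        _ = x.1 * (2 * (x.1 : ℝ) ^ 2) := by ring
    exact le_of_mul_le_mul_left h13 hq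
  have h14 : (x.2 : ℝ) ^ S.tau ≤ 2 * (x.1 : ℝ) ^ (2 * S.tau) := by
    calc (x.2 : ℝ) ^ S.tau ≤ (2 * (x.1 : ℝ) ^ 2) ^ S.tau :=
          Real.rpow_le_rpow hm.le h10 ht.le
      _ = 2 ^ S.tau * (x.1 : ℝ) ^ (2 * S.tau) := by
          rw [Real.mul_rpow (by norm_num) (by positivity), ← Real.rpow_natCast (x.1 : ℝ) 2,
            ← Real.rpow_mul hq.le]
          norm_num
      _ ≤ 2 * (x.1 : ℝ) ^ (2 * S.tau) := by
          have : (2 : ℝ) ^ S.tau ≤ 2 ^ (1 : ℝ) :=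
            Real.rpow_le_rpow_of_exponent_le (by norm_num) (by linarith)
          rw [Real.rpow_one] at this
          gcongr
  calc S.wo R k j x.2 ≤ (2 / S.c1) / (k : ℝ) ^ 2 * S.wd k x.2 := h6
    _ = (2 / S.c1) / (k : ℝ) ^ 2 * ((2 : ℝ) ^ ((S.s - 1) * k) * (x.2 : ℝ) ^ (1 - S.s + S.tau)) := rfl
    _ ≤ (2 / S.c1) / (k : ℝ) ^ 2 * ((2 * ((x.1 * x.2 : ℕ) : ℝ) ^ (S.s - 1)) *
        (x.2 : ℝ) ^ (1 - S.s + S.tau)) := by gcongr
    _ = (4 / S.c1) / (k : ℝ) ^ 2 * ((x.1 : ℝ) ^ (S.s - 1) * (x.2 : ℝ) ^ S.tau) := by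
        rw [h8, ← h9]
        ring
    _ ≤ (4 / S.c1) / (k : ℝ) ^ 2 * ((x.1 : ℝ) ^ (S.s - 1) * (2 * (x.1 : ℝ) ^ (2 * S.tau))) := by
        gcongr
    _ = (8 / S.c1) / (k : ℝ) ^ 2 * (x.1 : ℝ) ^ (S.s - 1 + 2 * S.tau) := by
        rw [Real.rpow_add hq]
        ring

theorem cw_nonneg {k0 : ℕ} {R : Set ℕ} (hG : S.Good k0 R) {k j : ℕ} (hk0 : k0 ≤ k) (hk : S.K ≤ k)
    (hj : j ∈ S.badc k) (q : ℕ) : 0 ≤ S.cw R k j q := by
  unfold Sys.cw
  refine Finset.sum_nonneg fun x hx => ?_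
  rw [Finset.mem_filter] at hx
  exact (wo_le' S hG hk0 hk hj (act_facts S hk hj hx.1).2.2.1.le).1

theorem ctl_nonneg {k0 : ℕ} {R : Set ℕ} (hG : S.Good k0 R) (hK : S.K ≤ k0) (k1 q : ℕ) :
    0 ≤ S.ctl k0 k1 R q := by
  unfold Sys.ctl
  refine Finset.sum_nonneg fun k hk => Finset.sum_nonneg fun j hj => ?_
  rw [Finset.mem_Ico] at hk
  exact cw_nonneg S hG hk.1 (hK.trans hk.1) hj q

theorem ctl_mono {k0 : ℕ} {R : Set ℕ} (hG : S.Good k0 R) (hK : S.K ≤ k0) {k1 k2 : ℕ} (h : k1 ≤ k2)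
    (q : ℕ) : S.ctl k0 k1 R q ≤ S.ctl k0 k2 R q := by
  unfold Sys.ctl
  refine Finset.sum_le_sum_of_subset_of_nonneg (Finset.Ico_subset_Ico_right h) fun k hk _ => ?_
  rw [Finset.mem_Ico] at hk
  exact Finset.sum_nonneg fun j hj => cw_nonneg S hG hk.1 (hK.trans hk.1) hj q

theorem ctl_zero {k0 : ℕ} {R : Set ℕ} (hK : S.K ≤ k0) (k1 q : ℕ)
    (h : (q : ℝ) < (2 : ℝ) ^ ((k0 : ℝ) / 3)) : S.ctl k0 k1 R q = 0 := by
  unfold Sys.ctl
  refine Finset.sum_eq_zero fun k hk => Finset.sum_eq_zero fun j hj => ?_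
  rw [Finset.mem_Ico] at hk
  unfold Sys.cw
  refine Finset.sum_eq_zero fun x hx => ?_
  rw [Finset.mem_filter] at hx
  exfalso
  have h1 := (act_facts S (hK.trans hk.1) hj hx.1).2.1
  rw [hx.2] at h1
  have h2 : (2 : ℝ) ^ ((k0 : ℝ) / 3) ≤ (2 : ℝ) ^ ((k : ℝ) / 3) := by
    apply Real.rpow_le_rpow_of_exponent_le (by norm_num)
    have : (k0 : ℝ) ≤ k := by exact_mod_cast hk.1
    linarith
  linarith

/-- a prime which is not a candidate has no control weight -/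
theorem ctl_zero_of_not_prime {k0 : ℕ} {R : Set ℕ} (hK : S.K ≤ k0) (k1 q : ℕ)
    (h : ¬ q.Prime) : S.ctl k0 k1 R q = 0 := by
  unfold Sys.ctl
  refine Finset.sum_eq_zero fun k hk => Finset.sum_eq_zero fun j hj => ?_
  rw [Finset.mem_Ico] at hk
  unfold Sys.cw
  refine Finset.sum_eq_zero fun x hx => ?_
  rw [Finset.mem_filter] at hx
  exact absurd (hx.2 ▸ (act_facts S (hK.trans hk.1) hj hx.1).1) h

theorem ctl_le_own {k0 : ℕ} {R : Set ℕ} (hG : S.Good k0 R) (hK : S.K ≤ k0) {k1 q : ℕ}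
    (hk1 : k1 ≤ top q) : S.ctl k0 k1 R q ≤
      (S.own k0 R q : ℝ) * ((8 / S.c1) / (k0 : ℝ) ^ 2 * (q : ℝ) ^ (S.s - 1 + 2 * S.tau)) := by
  have hc1 := S.c1_pos
  have hk0pos : (0 : ℝ) < k0 := by
    have := S.K_pos
    exact_mod_cast lt_of_lt_of_le this hK
  refine (ctl_mono S hG hK hk1 q).trans ?_
  unfold Sys.ctl Sys.own
  push_cast
  rw [Finset.sum_mul]
  refine Finset.sum_le_sum fun k hk => ?_
  rw [Finset.sum_mul]
  refine Finset.sum_le_sum fun j hj => ?_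
  rw [Finset.mem_Ico] at hk
  unfold Sys.cw
  rw [← nsmul_eq_mul]
  refine Finset.sum_le_card_nsmul _ _ _ fun x hx => ?_
  rw [Finset.mem_filter] at hx
  have h1 := wo_le_q S hG hk.1 (hK.trans hk.1) hj hx.1
  rw [hx.2] at h1
  refine h1.trans ?_
  have h2 : (k0 : ℝ) ≤ k := by exact_mod_cast hk.1
  gcongr

theorem ctl_le_pow {k0 : ℕ} {R : Set ℕ} (hG : S.Good k0 R) (hK : S.K ≤ k0) {k1 q : ℕ}
    (hk1 : k1 ≤ top q) : S.ctl k0 k1 R q ≤
      (8 / S.c1) / (k0 : ℝ) ^ 2 * (q : ℝ) ^ (S.s - 1 + 3 * S.tau) := by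
  have hc1 := S.c1_pos
  have ht := tau_pos S
  have h1 := ctl_le_own S hG hK hk1
  have h2 := hG.mult q
  have hB : (0 : ℝ) ≤ (8 / S.c1) / (k0 : ℝ) ^ 2 * (q : ℝ) ^ (S.s - 1 + 2 * S.tau) := by positivity
  rcases Nat.eq_zero_or_pos q with h0 | h0
  · rw [ctl_zero_of_not_prime S hK k1 q (by rw [h0]; exact Nat.not_prime_zero)]
    positivity
  · have hq : (0 : ℝ) < q := by exact_mod_cast h0
    calc S.ctl k0 k1 R q ≤
        (S.own k0 R q : ℝ) * ((8 / S.c1) / (k0 : ℝ) ^ 2 * (q : ℝ) ^ (S.s - 1 + 2 * S.tau)) := h1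
      _ ≤ (q : ℝ) ^ S.tau * ((8 / S.c1) / (k0 : ℝ) ^ 2 * (q : ℝ) ^ (S.s - 1 + 2 * S.tau)) := by
          gcongr
      _ = (8 / S.c1) / (k0 : ℝ) ^ 2 * (q : ℝ) ^ (S.s - 1 + 3 * S.tau) := by
          have : (q : ℝ) ^ (S.s - 1 + 3 * S.tau) =
              (q : ℝ) ^ S.tau * (q : ℝ) ^ (S.s - 1 + 2 * S.tau) := by
            rw [← Real.rpow_add hq]
            congr 1
            ring
          rw [this]
          ring

theorem ctlLe : CtlLe := by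
  intro S
  have hc1 := S.c1_pos
  refine ⟨max S.K ⌈16 / S.c1⌉₊, fun k0 hk0 R hG q k1 hk1 => ?_⟩
  have hK : S.K ≤ k0 := (le_max_left _ _).trans hk0
  have hk0' : 16 / S.c1 ≤ k0 := (Nat.le_ceil _).trans (by exact_mod_cast (le_max_right _ _).trans hk0)
  have hk0pos : (1 : ℝ) ≤ k0 := by
    have := S.K_pos
    exact_mod_cast this.trans hK
  have ht := tau_pos S
  refine ⟨ctl_nonneg S hG hK k1 q, ?_, fun h => ctl_zero S hK k1 q h⟩
  rcases Nat.eq_zero_or_pos q with h0 | h0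
  · rw [ctl_zero_of_not_prime S hK k1 q (by rw [h0]; exact Nat.not_prime_zero)]
    simp only [mul_zero]
    positivity
  · have hq : (1 : ℝ) ≤ q := by exact_mod_cast h0
    have h1 := ctl_le_pow S hG hK hk1
    have h2 : 2 * ((8 / S.c1) / (k0 : ℝ) ^ 2) ≤ 1 := by
      have h3 : 16 / S.c1 ≤ (k0 : ℝ) ^ 2 := by nlinarith
      have h4 : 2 * ((8 / S.c1) / (k0 : ℝ) ^ 2) = (16 / S.c1) / (k0 : ℝ) ^ 2 := by ring
      rw [h4, div_le_one (by positivity)]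
      exact h3
    calc 2 * S.ctl k0 k1 R q ≤ 2 * ((8 / S.c1) / (k0 : ℝ) ^ 2 * (q : ℝ) ^ (S.s - 1 + 3 * S.tau)) := by
          linarith
      _ = 2 * ((8 / S.c1) / (k0 : ℝ) ^ 2) * (q : ℝ) ^ (S.s - 1 + 3 * S.tau) := by ring
      _ ≤ 1 * (q : ℝ) ^ (S.s - 1 + 3 * S.tau) := by gcongr
      _ ≤ (q : ℝ) ^ (S.s - 1 + 5 * S.tau) := by
          rw [one_mul]
          exact Real.rpow_le_rpow_of_exponent_le hq (by linarith)

theorem one_le_ordC_aux {C : ℝ} (hC : 0 ≤ C) {t : ℝ} (ht : 0 < t) :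
    ∃ K0 : ℕ, ∀ k0 : ℕ, K0 ≤ k0 → ∀ p : ℝ, (2 : ℝ) ^ ((k0 : ℝ) / 5) ≤ p → C ≤ p ^ t := by
  refine ⟨⌈5 / t * Real.logb 2 (C + 1)⌉₊, fun k0 hk0 p hp => ?_⟩
  have h1 : 5 / t * Real.logb 2 (C + 1) ≤ k0 := (Nat.le_ceil _).trans (by exact_mod_cast hk0)
  have h2 : (0 : ℝ) < (2 : ℝ) ^ ((k0 : ℝ) / 5) := Real.rpow_pos_of_pos (by norm_num) _
  have h3 : ((2 : ℝ) ^ ((k0 : ℝ) / 5)) ^ t ≤ p ^ t := Real.rpow_le_rpow h2.le hp ht.le
  refine le_trans ?_ h3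
  rw [← Real.rpow_mul (by norm_num)]
  have h4 : Real.logb 2 (C + 1) ≤ (k0 : ℝ) / 5 * t := by
    have h5 : Real.logb 2 (C + 1) = 5 / t * Real.logb 2 (C + 1) * (t / 5) := by
      field_simp
    rw [h5]
    calc 5 / t * Real.logb 2 (C + 1) * (t / 5) ≤ (k0 : ℝ) * (t / 5) := by gcongr
      _ = (k0 : ℝ) / 5 * t := by ring
  calc C ≤ C + 1 := by linarith
    _ = (2 : ℝ) ^ Real.logb 2 (C + 1) := by
        rw [Real.rpow_logb (by norm_num) (by norm_num) (by linarith)]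
    _ ≤ (2 : ℝ) ^ ((k0 : ℝ) / 5 * t) := Real.rpow_le_rpow_of_exponent_le (by norm_num) h4

theorem bR_nonneg (R : Set ℕ) (p : ℕ) : 0 ≤ S.bR R p := by
  unfold Sys.bR
  split_ifs
  · exact base_nonneg S p
  · exact le_rfl

theorem wpLe : WpLe := by
  intro S
  obtain ⟨C, K1, hord⟩ := ordLe S
  obtain ⟨K2, hctl⟩ := ctlLe S
  have ht := tau_pos S
  obtain ⟨K3, hlarge⟩ := one_le_ordC_aux (C := 8 * |C| + 1) (by positivity) ht
  refine ⟨max (max K1 K2) (max K3 2), fun k0 hk0 R hG p hp => ?_⟩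
  have hK1 : K1 ≤ k0 := (le_max_left _ _).trans ((le_max_left _ _).trans hk0)
  have hK2 : K2 ≤ k0 := (le_max_right _ _).trans ((le_max_left _ _).trans hk0)
  have hK3 : K3 ≤ k0 := (le_max_left _ _).trans ((le_max_right _ _).trans hk0)
  have h2k : 2 ≤ k0 := (le_max_right _ _).trans ((le_max_right _ _).trans hk0)
  have h2k' : (2 : ℝ) ≤ k0 := by exact_mod_cast h2k
  obtain ⟨ho1, ho2⟩ := hord k0 hK1 p hp
  obtain ⟨hc1, hc2, hc3⟩ := hctl k0 hK2 R hG p (top p) le_rfl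
  have hb := bR_nonneg S R p
  refine ⟨by unfold Sys.Wp; positivity, ?_⟩
  have hp1 : (1 : ℝ) ≤ p := by exact_mod_cast hp.one_le
  have hp0 : (0 : ℝ) < p := by linarith
  unfold Sys.Wp Sys.Fh
  split_ifs with h
  · have h1 : S.bR R p = 0 := by
      unfold Sys.bR
      rw [if_neg]
      intro hR
      exact absurd ((hG.prime p hR).2) (not_le.2 h)
    have h2 : S.ordw k0 p = 0 := by
      unfold Sys.ordw
      rw [if_pos]
      have h3 : (p : ℝ) < ((2 ^ (k0 - 1) : ℕ) : ℝ) := by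
        refine lt_of_lt_of_le h ?_
        push_cast
        rw [← Real.rpow_natCast]
        apply Real.rpow_le_rpow_of_exponent_le (by norm_num)
        rw [Nat.cast_sub (by omega)]
        push_cast
        linarith
      exact_mod_cast h3
    have h4 : S.ctl k0 (top p) R p = 0 := by
      apply hc3
      refine lt_of_lt_of_le h ?_
      apply Real.rpow_le_rpow_of_exponent_le (by norm_num)
      linarith
    rw [h1, h2, h4]
    norm_num
  · have hpt := hlarge k0 hK3 p (not_lt.1 h)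
    have hlog : Real.log 2 ≤ Real.log p := Real.log_le_log (by norm_num) (by exact_mod_cast hp.two_le)
    have hlog2 : (0.69 : ℝ) < Real.log 2 := by
      have := Real.log_two_gt_d9
      linarith
    have hlog3 : (1/4 : ℝ) ≤ Real.log p ^ 3 := by
      have : (0.69 : ℝ) ^ 3 ≤ Real.log p ^ 3 := by
        have h5 : (0.69 : ℝ) ≤ Real.log p := by linarith
        gcongr
      norm_num at this ⊢
      linarith
    have hps : 0 < (p : ℝ) ^ (S.s - 1) := Real.rpow_pos_of_pos hp0 _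
    have h5 : 2 * S.ordw k0 p ≤ 8 * |C| * (p : ℝ) ^ (S.s - 1) := by
      have h6 : (p : ℝ) ^ (S.s - 1) / Real.log p ^ 3 ≤ (p : ℝ) ^ (S.s - 1) / (1/4) := by
        gcongr
      have h7 : C * ((p : ℝ) ^ (S.s - 1) / Real.log p ^ 3) ≤
          |C| * ((p : ℝ) ^ (S.s - 1) / (1/4)) := by
        calc C * ((p : ℝ) ^ (S.s - 1) / Real.log p ^ 3) ≤
            |C| * ((p : ℝ) ^ (S.s - 1) / Real.log p ^ 3) := by
              gcongr
              exact le_abs_self C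
          _ ≤ |C| * ((p : ℝ) ^ (S.s - 1) / (1/4)) := by gcongr
      calc 2 * S.ordw k0 p ≤ 2 * (|C| * ((p : ℝ) ^ (S.s - 1) / (1/4))) := by linarith
        _ = 8 * |C| * (p : ℝ) ^ (S.s - 1) := by ring
    have h8 : (p : ℝ) ^ (S.s - 1 + 5 * S.tau) = (p : ℝ) ^ (S.s - 1) * (p : ℝ) ^ (5 * S.tau) :=
      Real.rpow_add hp0 _ _
    have h9 : S.gam p = (p : ℝ) ^ (S.s - 1) * ((p : ℝ) ^ (5 * S.tau) * (p : ℝ) ^ S.tau) := by
      unfold Sys.gam
      rw [← Real.rpow_add hp0, ← Real.rpow_add hp0]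
      congr 1
      ring
    have h10 : 1 ≤ (p : ℝ) ^ (5 * S.tau) := Real.one_le_rpow hp1 (by linarith)
    have h11 : 8 * |C| + (p : ℝ) ^ (5 * S.tau) ≤ (p : ℝ) ^ (5 * S.tau) * (p : ℝ) ^ S.tau := by
      have h12 : (p : ℝ) ^ (5 * S.tau) * (8 * |C| + 1) ≤ (p : ℝ) ^ (5 * S.tau) * (p : ℝ) ^ S.tau := by
        gcongr
      have h13 : 0 ≤ 8 * |C| := by positivity
      nlinarith
    rw [h9]
    rw [h8] at hc2
    have h14 := mul_le_mul_of_nonneg_left h11 hps.le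
    nlinarith

end Pool.Agent.Helper61.KS
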